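import Pool.Agent.BOX.StmtsG

open Set Filter Topology MeasureTheory

namespace Pool.Agent.BOX.H50

open Pool.Agent.BOX

theorem fnl_d1 (f : ℝ → ℝ) (b τ : ℝ) :
    deriv (fun s => b * f (s + τ)) = fun s => b * deriv f (s + τ) := by
  funext s
  rw [deriv_const_mul_field, deriv_comp_add_const]

theorem fnl_d2 (f : ℝ → ℝ) (b τ t : ℝ) :
    iteratedDeriv 2 (fun s => b * f (s + τ)) t = b * iteratedDeriv 2 f (t + τ) := by
  rw [iteratedDeriv_succ, iteratedDeriv_one, fnl_d1, iteratedDeriv_succ, iteratedDeriv_one, fnl_d1]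

theorem fnl_d2' (f : ℝ → ℝ) (b t : ℝ) :
    iteratedDeriv 2 (fun s => b * f s) t = b * iteratedDeriv 2 f t := by
  have h := fnl_d2 f b 0 t
  simpa using h

theorem fnl_front {N : ℕ} (l x : Fin N → ℝ) (hx : x ∈ frontier (Box l)) :
    ∃ i, x i = 0 ∨ x i = l i := by
  have hcl : closure (Box l) ⊆ {x | ∀ i, 0 ≤ x i ∧ x i ≤ l i} := by
    refine closure_minimal (fun y hy i => ⟨(hy i).1.le, (hy i).2.le⟩) ?_
    have : {x : Fin N → ℝ | ∀ i, 0 ≤ x i ∧ x i ≤ l i} = ⋂ i, {x | 0 ≤ x i ∧ x i ≤ l i} := by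
      ext x; simp
    rw [this]
    refine isClosed_iInter fun i => ?_
    exact (isClosed_le continuous_const (continuous_apply i)).inter
      (isClosed_le (continuous_apply i) continuous_const)
  have hop : IsOpen (Box l) := by
    have : Box l = ⋂ i, {x | 0 < x i ∧ x i < l i} := by
      ext x; simp [Box]
    rw [this]
    refine isOpen_iInter_of_finite fun i => ?_
    exact (isOpen_lt continuous_const (continuous_apply i)).inter
      (isOpen_lt (continuous_apply i) continuous_const)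
  rw [hop.frontier_eq] at hx
  have h1 := hcl hx.1
  by_contra hcon
  push Not at hcon
  exact hx.2 fun i => ⟨lt_of_le_of_ne (h1 i).1 (Ne.symm (hcon i).1),
    lt_of_le_of_ne (h1 i).2 (hcon i).2⟩

theorem fnl (tor : TorStmt) (enl : EnlStmt) (enu : EnuStmt) : FnlStmt := by
  intro N l c T z d a c0 hS hN ha hc0 hz
  obtain ⟨hsm, htor⟩ := tor N l c T z d hS hN
  have hT := hS.hT
  set U : ℝ → (Fin N → ℝ) → ℝ := ser l c (dsp l z) with hU
  set τ : ℝ := T + 1 with hτ
  set b : ℝ := (Real.sqrt a)⁻¹ with hb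
  have hsa : 0 < Real.sqrt a := Real.sqrt_pos.mpr ha
  have hb0 : 0 < b := inv_pos.mpr hsa
  have hab : a * b ^ 2 = 1 := by
    rw [hb, inv_pow, Real.sq_sqrt ha.le]
    exact mul_inv_cancel₀ ha.ne'
  set u : ℝ → (Fin N → ℝ) → ℝ := fun t x => b * U (t + τ) x with hu
  have hdt : ∀ t x, dt u t x = b * dt U (t + τ) x := by
    intro t x
    exact congrFun (fnl_d1 (fun s => U s x) b τ) t
  have hdtt : ∀ t x, dtt u t x = b * dtt U (t + τ) x := by
    intro t x
    exact fnl_d2 (fun s => U s x) b τ t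
  have hdx : ∀ i t x, dx i (u t) x = b * dx i (U (t + τ)) x := by
    intro i t x
    exact deriv_const_mul_field b
  have hdxx : ∀ i t x, dxx i (u t) x = b * dxx i (U (t + τ)) x := by
    intro i t x
    exact fnl_d2' _ b 0
  have hlpos : 0 < ∏ i, l i := Finset.prod_pos fun i _ => hS.hl i
  refine ⟨u, ⟨⟨1, one_pos, ?_⟩, ?_, ?_⟩, ?_⟩
  · have h1 : ContDiffOn ℝ 2 (fun q : ℝ × (Fin N → ℝ) => U (q.1 + τ) q.2) {q | -1 < q.1} := by
      have h2 : ContDiffOn ℝ 2 (fun q : ℝ × (Fin N → ℝ) => (q.1 + τ, q.2)) {q | -1 < q.1} :=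
        ((contDiff_fst.add contDiff_const).prodMk contDiff_snd).contDiffOn
      exact hsm.comp h2 (fun q hq => by
        simp only [mem_setOf_eq] at hq ⊢
        linarith)
    exact contDiffOn_const.mul h1
  · intro t ht x _
    have h := (htor (t + τ) (by linarith) x).1
    rw [hdtt, hdt]
    have h1 : ∑ i, dxx i (u t) x = b * ∑ i, dxx i (U (t + τ)) x := by
      rw [Finset.mul_sum]
      exact Finset.sum_congr rfl fun i _ => hdxx i t x
    rw [h1, Real.rpow_two, sq_abs]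
    have h2 : a * (b * dt U (t + τ) x) ^ 2 * (b * dt U (t + τ) x) =
        b * (a * b ^ 2) * dt U (t + τ) x ^ 3 := by ring
    rw [h2, hab]
    linear_combination b * h
  · intro t ht x hx
    obtain ⟨i, hi⟩ := fnl_front l x hx
    have h := (htor (t + τ) (by linarith) x).2.2.2 i hi
    simp only [hu]
    rw [h, mul_zero]
  · obtain ⟨C, hC⟩ := enu N l c T z d hS
    have heng : ∀ t, 0 ≤ t → eng l u t = b ^ 2 * ∫ x in Box l,
        ((∑' k, (z k (t + τ)).re * Sn l c k x) ^ 2 +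
          ∑ i, (∑' k, dsp l z k (t + τ) * Sd l c i k x) ^ 2) := by
      intro t ht
      rw [← integral_const_mul]
      unfold eng
      congr 1
      funext x
      obtain ⟨-, h2, h3, -⟩ := htor (t + τ) (by linarith) x
      rw [hdt, h2, mul_pow, mul_add, Finset.mul_sum]
      congr 1
      refine Finset.sum_congr rfl fun i _ => ?_
      rw [hdx, h3 i, mul_pow]
    refine ⟨b ^ 2 * (2 ^ N * (∏ i, l i) * c0 ^ 2) * τ⁻¹, b ^ 2 * |C|, ?_, ?_⟩
    · have : 0 < τ := by linarith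
      positivity
    · intro t ht
      have htT : t + τ > T := by linarith
      have hτ1 : 1 ≤ τ := by linarith
      have hp : 0 < t + τ := by linarith
      have h1 := enl N l c T z d hS hN (t + τ) htT
      have h2 := hC (t + τ) htT
      have h3 := hz (t + τ) htT
      rw [heng t ht, Real.rpow_neg_one]
      rw [Real.rpow_neg_one] at h2
      have hb2 : 0 < b ^ 2 := by positivity
      constructor
      · have h4 : c0 ^ 2 * (t + τ)⁻¹ ≤ ‖z (fun _ => 1) (t + τ)‖ ^ 2 := by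
          have h5 : (c0 * (t + τ) ^ (-(1 / 2) : ℝ)) ^ 2 ≤ ‖z (fun _ => 1) (t + τ)‖ ^ 2 :=
            pow_le_pow_left₀ (by positivity) h3 2
          rw [mul_pow, ← Real.rpow_natCast ((t + τ) ^ (-(1 / 2) : ℝ)) 2, ← Real.rpow_mul hp.le] at h5
          have h6 : (-(1 / 2) : ℝ) * ((2 : ℕ) : ℝ) = -1 := by norm_num
          rwa [h6, Real.rpow_neg_one] at h5
        have h7 : τ⁻¹ * (1 + t)⁻¹ ≤ (t + τ)⁻¹ := by
          rw [← mul_inv]
          refine inv_anti₀ hp ?_
          nlinarith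
        calc b ^ 2 * (2 ^ N * (∏ i, l i) * c0 ^ 2) * τ⁻¹ * (1 + t)⁻¹
            = b ^ 2 * (2 ^ N * (∏ i, l i) * (c0 ^ 2 * (τ⁻¹ * (1 + t)⁻¹))) := by ring
          _ ≤ b ^ 2 * (2 ^ N * (∏ i, l i) * (c0 ^ 2 * (t + τ)⁻¹)) := by gcongr
          _ ≤ b ^ 2 * (2 ^ N * (∏ i, l i) * ‖z (fun _ => 1) (t + τ)‖ ^ 2) := by gcongr
          _ ≤ _ := mul_le_mul_of_nonneg_left h1 hb2.le
      · have h8 : (t + τ)⁻¹ ≤ (1 + t)⁻¹ := inv_anti₀ (by linarith) (by linarith)
        calc _ ≤ b ^ 2 * (C * (t + τ)⁻¹) := mul_le_mul_of_nonneg_left h2 hb2.le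
          _ ≤ b ^ 2 * (|C| * (1 + t)⁻¹) := by
              refine mul_le_mul_of_nonneg_left ?_ hb2.le
              exact mul_le_mul (le_abs_self C) h8 (inv_nonneg.mpr hp.le) (abs_nonneg C)
          _ = b ^ 2 * |C| * (1 + t)⁻¹ := by ring

end Pool.Agent.BOX.H50
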